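import Pool.Agent.W536.FixMain

/-!
# Galois-fixed elements of the geometric fundamental group of a curve

Let `X` be a smooth curve over `K` with function field `F`, let `S` be the set of the local rings
of `X` at its closed points, and let `A` be a valuation ring of the maximal extension `M` of `F`
which is unramified over `S`, lying above the rational point `x`. Then `Gal(M/F)` is the etale
fundamental group of `X`, `geometricPart K F M` is the geometric fundamental group, and the
decomposition group of `A` is the image of the section `s_x`. An open subgroup `V` is the
fundamental group of a finite etale covering `Y` of `X` with a point `y` above `x`, the group
`V ∩ D` is the Galois group of the residue field `L` of `y`, and the hypothesis `hW` says that the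
abelianization of the geometric fundamental group of `Y` contains no nontrivial elements fixed by
the Galois group of `L`. For finite fields, number fields and global function fields this holds:
away from `p` (and at `p` if `Y` is proper, looking at places where the `p`-rank is the generic
one) by the weights of Frobenius; at `p` if `Y` is affine because `H_1(Y, Z_p)` is torsion free
and because `H^1(Y, F_p)` is a quotient of `O(Y) ⊗ L^s`, whose coinvariants under the Galois group
vanish.
-/

universe u v w

namespace Pool.Agent.Results.MP_a94a03_ag.FixedElements

open Pool.Agent.W536.Fix

/-- An element of the geometric fundamental group which commutes with the decomposition group of a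
point is trivial, if for the finite etale coverings there are no nontrivial fixed classes in the
abelianized geometric fundamental groups. -/
theorem result (K : Type w) (F : Type u) (M : Type v) [Field K] [Field F] [Field M]
    [Algebra K F] [Algebra F M] [Algebra K M] [IsScalarTower K F M]
    (S : Set (ValuationSubring F)) (hM : IsMaxUnramified S M) (A : ValuationSubring M)
    (hW : NoFixedClasses (geometricPart K F M) (A.decompositionSubgroup F))
    (g : M ≃ₐ[F] M) (hg : g ∈ geometricPart K F M)
    (hfix : ∀ σ ∈ A.decompositionSubgroup F, σ * g * σ⁻¹ = g) : g = 1 := by
  have := hM.galois
  exact main hW hg hfix

end Pool.Agent.Results.MP_a94a03_ag.FixedElements
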